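import Pool.Agent.Helper4.MCP.GoalsB

/-!
Project MCP (MP_d8224a_co): the goal SPLIT (splitting of the potential).
-/

set_option autoImplicit false
set_option linter.unusedSectionVars false

namespace Pool.Agent.Helper87.MCP

open Pool.Agent.Helper4.MCP Pool.Agent.Helper26.MCE Pool.Agent.Helper87.MC Finset

section samples

variable {Λ : Type} [Fintype Λ] {m : Λ → ℝ} {s : ℕ}

theorem sum_w (hm : ∑ l, m l = 1) : ∑ a : Fin s → Λ, ∏ i, m (a i) = 1 := by
  classical
  have h := Finset.prod_univ_sum (fun _ : Fin s => (univ : Finset Λ)) (fun _ l => m l)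
  rw [Fintype.piFinset_univ] at h
  rw [← h]
  simp [hm]

open Classical in
theorem sum_w_mem (hm : ∑ l, m l = 1) (i : Fin s) (T : Finset Λ) :
    ∑ a : Fin s → Λ, (∏ j, m (a j)) * (if a i ∈ T then 1 else 0) = ms m T := by
  have h := Finset.prod_univ_sum (fun _ : Fin s => (univ : Finset Λ))
    (fun j l => if j = i then (if l ∈ T then m l else 0) else m l)
  rw [Fintype.piFinset_univ] at h
  have h1 : ∀ a : Fin s → Λ, (∏ j, m (a j)) * (if a i ∈ T then 1 else 0) =
      ∏ j, (if j = i then (if a j ∈ T then m (a j) else 0) else m (a j)) := by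
    intro a
    rw [← Finset.mul_prod_erase univ (fun j => m (a j)) (mem_univ i),
      ← Finset.mul_prod_erase univ
        (fun j => (if j = i then (if a j ∈ T then m (a j) else 0) else m (a j))) (mem_univ i)]
    have h2 : ∏ j ∈ univ.erase i, (if j = i then (if a j ∈ T then m (a j) else 0) else m (a j)) =
        ∏ j ∈ univ.erase i, m (a j) :=
      Finset.prod_congr rfl fun j hj => if_neg (Finset.ne_of_mem_erase hj)
    rw [h2, if_pos rfl]
    by_cases h3 : a i ∈ T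
    · rw [if_pos h3, if_pos h3, mul_one]
    · rw [if_neg h3, if_neg h3, mul_zero, zero_mul]
  rw [Finset.sum_congr rfl fun a _ => h1 a, ← h,
    ← Finset.mul_prod_erase univ _ (mem_univ i)]
  have h4 : ∏ x ∈ univ.erase i, ∑ l, (if x = i then (if l ∈ T then m l else 0) else m l) = 1 := by
    refine Finset.prod_eq_one fun x hx => ?_
    rw [← hm]
    exact Finset.sum_congr rfl fun l _ => if_neg (Finset.ne_of_mem_erase hx)
  rw [h4, mul_one]
  unfold ms
  rw [Finset.sum_congr rfl fun l _ => if_pos rfl, ← Finset.sum_filter]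
  exact Finset.sum_congr (by ext l; simp) fun _ _ => rfl

theorem w_nonneg (hpos : ∀ l, 0 ≤ m l) (a : Fin s → Λ) : 0 ≤ ∏ i, m (a i) :=
  Finset.prod_nonneg fun _ _ => hpos _

open Classical in
/-- The probability that a sample meets `T`. -/
theorem meet_le (hpos : ∀ l, 0 ≤ m l) (hm : ∑ l, m l = 1) (T : Finset Λ) :
    ∑ a : Fin s → Λ, (∏ i, m (a i)) * (if ∃ i, a i ∈ T then 1 else 0) ≤
      min 1 ((s : ℝ) * ms m T) := by
  refine le_min ?_ ?_
  · refine le_trans (Finset.sum_le_sum fun a _ => ?_) (sum_w (s := s) hm).le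
    have h := w_nonneg hpos a
    split_ifs
    · rw [mul_one]
    · rw [mul_zero]
      exact h
  · have h1 : (s : ℝ) * ms m T = ∑ i : Fin s, ∑ a : Fin s → Λ,
        (∏ j, m (a j)) * (if a i ∈ T then 1 else 0) := by
      rw [Finset.sum_congr rfl fun i _ => sum_w_mem hm i T]
      simp
    rw [h1, Finset.sum_comm]
    refine Finset.sum_le_sum fun a _ => ?_
    rw [← Finset.mul_sum]
    refine mul_le_mul_of_nonneg_left ?_ (w_nonneg hpos a)
    split_ifs with h
    · obtain ⟨i, hi⟩ := h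
      have h2 : (if a i ∈ T then (1 : ℝ) else 0) ≤ ∑ i, if a i ∈ T then (1 : ℝ) else 0 :=
        Finset.single_le_sum (f := fun i => if a i ∈ T then (1 : ℝ) else 0)
          (fun j _ => by split_ifs <;> norm_num) (mem_univ i)
      rwa [if_pos hi] at h2
    · exact Finset.sum_nonneg fun j _ => by split_ifs <;> norm_num

end samples

section yy

variable {G : Type} [AddCommGroup G] [Fintype G] {Λ : Type} [Fintype Λ] {D J : Finset G}
  {e : Λ → G} {W : Λ → AddSubgroup G} {m : Λ → ℝ}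

theorem sum_m (hS : Sys D J e W m) (hJ : J.Nonempty) : ∑ l, m l = 1 := by
  classical
  have h1 : ∑ x ∈ J, ∑ l, (if e l = x then m l else 0) = 1 := by
    have h2 : ∑ x ∈ J, ∑ l, (if e l = x then m l else 0) = ∑ x ∈ J, 1 / (J.card : ℝ) :=
      Finset.sum_congr rfl fun x hx => by
        rw [← hS.marg x hx]
    rw [h2, Finset.sum_const, nsmul_eq_mul]
    have h3 : (J.card : ℝ) ≠ 0 := by exact_mod_cast (Finset.card_pos.2 hJ).ne'
    field_simp
  rw [Finset.sum_comm] at h1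
  rw [← h1]
  refine Finset.sum_congr rfl fun l _ => ?_
  rw [Finset.sum_ite_eq, if_pos (hS.mem l)]

theorem card_W_le (hS : Sys D J e W m) (l : Λ) : Nat.card (W l) ≤ D.card := by
  classical
  have h1 : Nat.card (W l) ≤ Nat.card D := by
    refine Nat.card_le_card_of_injective
      (fun h : W l => (⟨e l + h, hS.coset l h h.2⟩ : D)) ?_
    intro a b hab
    have h2 := congrArg (Subtype.val : D → G) hab
    exact Subtype.ext (add_left_cancel h2)
  rwa [Nat.card_eq_fintype_card (α := D), Fintype.card_coe] at h1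

theorem yy_mono (hS : Sys D J e W m) {M : ℕ} (hM : 1 ≤ M) (hMD : M * D.card ≤ Fintype.card G)
    {s : ℕ} (a : Fin s → Λ) {I₁ I₂ : Finset (Fin s)} (h : I₁ ⊆ I₂) :
    yy ((M : ℝ) / Fintype.card G) W a I₁ ≤ yy ((M : ℝ) / Fintype.card G) W a I₂ := by
  have hn : 0 < (Fintype.card G : ℝ) := by exact_mod_cast Fintype.card_pos
  have hM' : 0 < (M : ℝ) := by exact_mod_cast hM
  have hlam : 0 < (M : ℝ) / Fintype.card G := div_pos hM' hn
  by_cases h2 : I₂ = ∅
  · have h1 : I₁ = ∅ := Finset.subset_empty.1 (h2 ▸ h)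
    rw [h1, h2]
  by_cases h1 : I₁ = ∅
  · unfold yy
    rw [if_pos h1, if_neg h2]
    obtain ⟨i, hi⟩ := Finset.nonempty_iff_ne_empty.2 h2
    have h3 : Nat.card (⨅ i ∈ I₂, W (a i) : AddSubgroup G) ≤ Nat.card (W (a i)) :=
      Nat.card_le_card_of_injective _ (AddSubgroup.inclusion_injective (iInf₂_le i hi))
    have h4 := h3.trans (card_W_le hS (a i))
    have h5 : ((Nat.card (⨅ i ∈ I₂, W (a i) : AddSubgroup G) : ℕ) : ℝ) ≤ D.card := by
      exact_mod_cast h4
    have h6 : (M : ℝ) * D.card ≤ Fintype.card G := by exact_mod_cast hMD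
    have h7 : (M : ℝ) / Fintype.card G * (Nat.card (⨅ i ∈ I₂, W (a i) : AddSubgroup G) : ℕ) ≤
        1 := by
      rw [div_mul_eq_mul_div, div_le_one hn]
      exact (mul_le_mul_of_nonneg_left h5 hM'.le).trans h6
    have h8 := Real.log_nonpos (by positivity) h7
    linarith
  · unfold yy
    rw [if_neg h1, if_neg h2]
    have h3 : (⨅ i ∈ I₂, W (a i) : AddSubgroup G) ≤ ⨅ i ∈ I₁, W (a i) :=
      le_iInf₂ fun i hi => iInf₂_le i (h hi)
    have h4 : Nat.card (⨅ i ∈ I₂, W (a i) : AddSubgroup G) ≤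
        Nat.card (⨅ i ∈ I₁, W (a i) : AddSubgroup G) :=
      Nat.card_le_card_of_injective _ (AddSubgroup.inclusion_injective h3)
    have h5 : ((Nat.card (⨅ i ∈ I₂, W (a i) : AddSubgroup G) : ℕ) : ℝ) ≤
        (Nat.card (⨅ i ∈ I₁, W (a i) : AddSubgroup G) : ℕ) := by exact_mod_cast h4
    have h6 : 0 < ((Nat.card (⨅ i ∈ I₂, W (a i) : AddSubgroup G) : ℕ) : ℝ) := by
      exact_mod_cast Nat.card_pos
    have h7 := Real.log_le_log (mul_pos hlam h6) (mul_le_mul_of_nonneg_left h5 hlam.le)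
    linarith

end yy

section main

variable {G : Type} [AddCommGroup G] [Fintype G] {Λ : Type} [Fintype Λ]

open Classical in
/-- The cost of one cover and one sample. -/
theorem bracket (h1 : G_PAT) {M s : ℕ} (W : Λ → AddSubgroup G) (ω : Fin M → G) (B : Finset Λ)
    (p : G × Finset (Fin M)) (a : Fin s → Λ) (lam c : ℝ) (hs : 2 ≤ s) (hc : 0 ≤ c)
    (v₀ : Fin M) :
    ∑ v ∈ p.2, zz lam W a (univ.filter fun i => a i ∈ own W ω B p v) -
        (c + 8 * Real.log (s + 1)) *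
          ∑ v ∈ p.2.erase v₀, (if ∃ i, a i ∈ own W ω B p v then (1 : ℝ) else 0) ≤
      (∑ l, (yy lam W a (blk (pat W ω B p a) l) +
        Real.log ((blk (pat W ω B p a) l).card.factorial : ℝ))) -
      (if 2 ≤ nb (pat W ω B p a) then
        c + (nb (pat W ω B p a) + 1) * Real.log (s + 1) + 5 * Real.log s else 0) := by
  obtain ⟨-, -, -, -, -, h6, h7⟩ := h1 G Λ M s W ω B p a
  have e1 := h6 (zz lam W a) (by unfold zz yy; simp)
  have e2 : ∑ l, (yy lam W a (blk (pat W ω B p a) l) +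
      Real.log ((blk (pat W ω B p a) l).card.factorial : ℝ)) =
      ∑ l, zz lam W a (blk (pat W ω B p a) l) := rfl
  rw [e2, e1]
  have hs1 : (2 : ℝ) ≤ s := by exact_mod_cast hs
  have hL0 : 0 ≤ Real.log s := Real.log_nonneg (by linarith)
  have hL : Real.log s ≤ Real.log (s + 1) := Real.log_le_log (by linarith) (by linarith)
  have hY : ∑ v ∈ p.2.erase v₀, (if ∃ i, a i ∈ own W ω B p v then (1 : ℝ) else 0) =
      (((p.2.filter fun v => ∃ i, a i ∈ own W ω B p v).erase v₀).card : ℝ) := by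
    rw [Finset.sum_boole]
    congr 2
    ext v
    simp only [mem_filter, mem_erase]
    tauto
  have hY2 : ((p.2.filter fun v => ∃ i, a i ∈ own W ω B p v).card : ℝ) - 1 ≤
      (((p.2.filter fun v => ∃ i, a i ∈ own W ω B p v).erase v₀).card : ℝ) := by
    have h8 := Finset.pred_card_le_card_erase (s := p.2.filter fun v => ∃ i, a i ∈ own W ω B p v)
      (a := v₀)
    have h9 : (p.2.filter fun v => ∃ i, a i ∈ own W ω B p v).card ≤
        ((p.2.filter fun v => ∃ i, a i ∈ own W ω B p v).erase v₀).card + 1 := by omega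
    have h10 : ((p.2.filter fun v => ∃ i, a i ∈ own W ω B p v).card : ℝ) ≤
        (((p.2.filter fun v => ∃ i, a i ∈ own W ω B p v).erase v₀).card : ℝ) + 1 := by
      exact_mod_cast h9
    linarith
  rw [hY]
  have hj : (nb (pat W ω B p a) : ℝ) =
      ((p.2.filter fun v => ∃ i, a i ∈ own W ω B p v).card : ℝ) := by
    rw [h7]
  set Y : ℝ := (((p.2.filter fun v => ∃ i, a i ∈ own W ω B p v).erase v₀).card : ℝ) with hYdef
  have hY0 : 0 ≤ Y := by rw [hYdef]; positivity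
  split_ifs with h8
  · have h9 : (2 : ℝ) ≤ nb (pat W ω B p a) := by exact_mod_cast h8
    set j : ℝ := (nb (pat W ω B p a) : ℝ) with hjdef
    rw [← hj] at hY2
    set L : ℝ := Real.log (s + 1) with hLdef
    have h10 : c ≤ c * Y := by nlinarith
    have h11 : (j + 1) * L + 5 * Real.log s ≤ 8 * L * Y := by
      have h12 : 8 * L * (j - 1) ≤ 8 * L * Y := by
        apply mul_le_mul_of_nonneg_left hY2
        linarith
      nlinarith
    nlinarith
  · have h9 : 0 ≤ (c + 8 * Real.log (s + 1)) * Y := by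
      apply mul_nonneg _ hY0
      linarith
    linarith

open Classical in
/-- The inequality for one sample. -/
theorem one_sample (h1 : G_PAT) (h3 : G_ENT) {M s : ℕ} (W : Λ → AddSubgroup G) (B : Finset Λ)
    (a : Fin s → Λ) (lam c : ℝ) (hs : 2 ≤ s) (hc : 0 ≤ c) (Θ : Type) [Fintype Θ] (N : ℝ)
    (hN0 : 0 < N) (hΘ : (Fintype.card Θ : ℝ) = N) (ω : Θ → Fin M → G)
    (q : Θ → G × Finset (Fin M)) (v₀ : Θ → Fin M)
    (hmono : ∀ I₁ I₂ : Finset (Fin s), I₁ ⊆ I₂ → yy lam W a I₁ ≤ yy lam W a I₂)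
    (hcnt : ∀ π : Fin s → Option (Fin s), 2 ≤ nb π →
      ∑ θ, (if pat W (ω θ) B (q θ) a = π then (1 : ℝ) else 0) ≤
        N * Real.exp (c + yy lam W a (univ.filter fun i => a i ∈ B) -
          ∑ l, yy lam W a (blk π l))) :
    ∑ θ, (∑ v ∈ (q θ).2, zz lam W a (univ.filter fun i => a i ∈ own W (ω θ) B (q θ) v) -
        (c + 8 * Real.log (s + 1)) * ∑ v ∈ (q θ).2.erase (v₀ θ),
          (if ∃ i, a i ∈ own W (ω θ) B (q θ) v then (1 : ℝ) else 0)) ≤
      N * (zz lam W a (univ.filter fun i => a i ∈ B) + 1 / (s : ℝ) ^ 5) := by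
  have h4 := h3 s (univ.filter fun i => a i ∈ B) Θ (fun _ => 1 / N)
    (fun θ => pat W (ω θ) B (q θ) a) (yy lam W a) c hs (fun _ => by positivity)
    (by
      rw [Finset.sum_const, Finset.card_univ, nsmul_eq_mul, hΘ]
      field_simp) hc
    (fun θ => (h1 G Λ M s W (ω θ) B (q θ) a).2.2.2.1) (by unfold yy; simp) hmono (by
      intro π hπ
      have h5 := hcnt π hπ
      have h6 : ∑ θ, (if pat W (ω θ) B (q θ) a = π then 1 / N else 0) =
          (∑ θ, (if pat W (ω θ) B (q θ) a = π then (1 : ℝ) else 0)) / N := by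
        rw [Finset.sum_div]
        refine Finset.sum_congr rfl fun θ _ => ?_
        split_ifs
        · rfl
        · rw [zero_div]
      rw [h6, div_le_iff₀ hN0, mul_comm]
      exact h5)
  have h7 : ∑ θ, (∑ v ∈ (q θ).2,
        zz lam W a (univ.filter fun i => a i ∈ own W (ω θ) B (q θ) v) -
        (c + 8 * Real.log (s + 1)) * ∑ v ∈ (q θ).2.erase (v₀ θ),
          (if ∃ i, a i ∈ own W (ω θ) B (q θ) v then (1 : ℝ) else 0)) ≤
      ∑ θ, ((∑ l, (yy lam W a (blk (pat W (ω θ) B (q θ) a) l) +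
        Real.log ((blk (pat W (ω θ) B (q θ) a) l).card.factorial : ℝ))) -
      (if 2 ≤ nb (pat W (ω θ) B (q θ) a) then
        c + (nb (pat W (ω θ) B (q θ) a) + 1) * Real.log (s + 1) + 5 * Real.log s else 0)) :=
    Finset.sum_le_sum fun θ _ => bracket h1 W (ω θ) B (q θ) a lam c hs hc (v₀ θ)
  rw [← Finset.mul_sum] at h4
  have h8 := mul_le_mul_of_nonneg_left h4 hN0.le
  rw [← mul_assoc, mul_one_div_cancel hN0.ne', one_mul] at h8
  exact h7.trans h8

open Classical in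
/-- The mean over the samples. -/
theorem averaged {M s : ℕ} (W : Λ → AddSubgroup G) (m : Λ → ℝ) (hpos : ∀ l, 0 ≤ m l)
    (hm : ∑ l, m l = 1) (B : Finset Λ) (lam c : ℝ) (hc : 0 ≤ c) (Θ : Type)
    [Fintype Θ] (N : ℝ) (ω : Θ → Fin M → G) (q : Θ → G × Finset (Fin M)) (v₀ : Θ → Fin M)
    (hone : ∀ a : Fin s → Λ,
      ∑ θ, (∑ v ∈ (q θ).2, zz lam W a (univ.filter fun i => a i ∈ own W (ω θ) B (q θ) v) -
        (c + 8 * Real.log (s + 1)) * ∑ v ∈ (q θ).2.erase (v₀ θ),
          (if ∃ i, a i ∈ own W (ω θ) B (q θ) v then (1 : ℝ) else 0)) ≤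
      N * (zz lam W a (univ.filter fun i => a i ∈ B) + 1 / (s : ℝ) ^ 5)) :
    ∑ θ, (∑ v ∈ (q θ).2, ZZ lam W m s (own W (ω θ) B (q θ) v) -
        (c + 8 * Real.log (s + 1)) * ∑ v ∈ (q θ).2.erase (v₀ θ),
          min 1 ((s : ℝ) * ms m (own W (ω θ) B (q θ) v))) ≤
      N * (ZZ lam W m s B + 1 / (s : ℝ) ^ 5) := by
  have hL : 0 ≤ c + 8 * Real.log (s + 1) := by
    have h1 : (0 : ℝ) ≤ Real.log (s + 1) := by
      apply Real.log_nonneg
      have : (0 : ℝ) ≤ s := Nat.cast_nonneg s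
      linarith
    linarith
  have h2 : ∑ a : Fin s → Λ, (∏ i, m (a i)) *
      (N * (zz lam W a (univ.filter fun i => a i ∈ B) + 1 / (s : ℝ) ^ 5)) =
      N * (ZZ lam W m s B + 1 / (s : ℝ) ^ 5) := by
    have h3 : ∀ a : Fin s → Λ, (∏ i, m (a i)) *
        (N * (zz lam W a (univ.filter fun i => a i ∈ B) + 1 / (s : ℝ) ^ 5)) =
        N * ((∏ i, m (a i)) * zz lam W a (univ.filter fun i => a i ∈ B)) +
          N * (1 / (s : ℝ) ^ 5) * (∏ i, m (a i)) := fun a => by ring
    rw [Finset.sum_congr rfl fun a _ => h3 a, Finset.sum_add_distrib, ← Finset.mul_sum,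
      ← Finset.mul_sum, sum_w hm]
    unfold ZZ
    ring
  rw [← h2]
  refine le_trans ?_ (Finset.sum_le_sum fun a _ =>
    mul_le_mul_of_nonneg_left (hone a) (w_nonneg hpos a))
  have h4 : ∑ a : Fin s → Λ, (∏ i, m (a i)) *
      ∑ θ, (∑ v ∈ (q θ).2, zz lam W a (univ.filter fun i => a i ∈ own W (ω θ) B (q θ) v) -
        (c + 8 * Real.log (s + 1)) * ∑ v ∈ (q θ).2.erase (v₀ θ),
          (if ∃ i, a i ∈ own W (ω θ) B (q θ) v then (1 : ℝ) else 0)) =
      ∑ θ, (∑ v ∈ (q θ).2, ZZ lam W m s (own W (ω θ) B (q θ) v) -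
        (c + 8 * Real.log (s + 1)) * ∑ v ∈ (q θ).2.erase (v₀ θ),
          ∑ a : Fin s → Λ, (∏ i, m (a i)) *
            (if ∃ i, a i ∈ own W (ω θ) B (q θ) v then (1 : ℝ) else 0)) := by
    simp_rw [Finset.mul_sum]
    rw [Finset.sum_comm]
    refine Finset.sum_congr rfl fun θ _ => ?_
    simp_rw [mul_sub, Finset.sum_sub_distrib]
    congr 1
    · simp_rw [Finset.mul_sum]
      rw [Finset.sum_comm]
      rfl
    · simp_rw [Finset.mul_sum]
      rw [Finset.sum_comm]
      refine Finset.sum_congr rfl fun v _ => Finset.sum_congr rfl fun a _ => ?_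
      ring
  rw [h4]
  refine Finset.sum_le_sum fun θ _ => ?_
  refine sub_le_sub_left (mul_le_mul_of_nonneg_left (Finset.sum_le_sum fun v _ => ?_) hL) _
  exact meet_le hpos hm _

theorem sum_theta {A C : Type} [Fintype A] (F : A → Finset C) (f : A → C → ℝ) :
    ∑ θ : ((univ : Finset A).sigma F : Finset (Σ _ : A, C)), f θ.1.1 θ.1.2 =
      ∑ ω, ∑ p ∈ F ω, f ω p := by
  rw [← Finset.sum_sigma (univ : Finset A) F (fun x => f x.1 x.2)]
  exact Finset.sum_coe_sort ((univ : Finset A).sigma F) (fun x => f x.1 x.2)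

open Classical in
theorem goalSPLIT (h1 : G_PAT) (h2 : G_CNTP) (h3 : G_ENT) : G_SPLIT := by
  intro G _ _ D J Λ _ e W m M s t δ η c B F hS hJ hs hM hδ hc hB hMD hE hdisj hF
  have hm := sum_m hS hJ
  have hpos := hS.pos
  have hn : 0 < (Fintype.card G : ℝ) := by exact_mod_cast Fintype.card_pos
  have hM' : 0 < (M : ℝ) := by exact_mod_cast hM
  obtain ⟨N, hN⟩ : ∃ N : ℝ, N = ∑ ω, ((F ω).card : ℝ) := ⟨_, rfl⟩
  have hN0 : 0 < N := by
    rw [← hN] at hF
    have h4 : 0 < Real.exp c * N := lt_of_lt_of_le (by positivity) hF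
    exact (mul_pos_iff_of_pos_left (Real.exp_pos c)).1 h4
  have hcard : (Fintype.card ((univ : Finset (Fin M → G)).sigma F :
      Finset (Σ _ : Fin M → G, G × Finset (Fin M))) : ℝ) = N := by
    rw [Fintype.card_coe, Finset.card_sigma, hN]
    push_cast
    rfl
  have hΘm : ∀ θ : ((univ : Finset (Fin M → G)).sigma F :
      Finset (Σ _ : Fin M → G, G × Finset (Fin M))), θ.1.2 ∈ F θ.1.1 :=
    fun θ => (Finset.mem_sigma.1 θ.2).2
  -- the largest part
  have hex : ∀ θ : ((univ : Finset (Fin M → G)).sigma F :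
      Finset (Σ _ : Fin M → G, G × Finset (Fin M))), ∃ v₀ ∈ θ.1.2.2, ∀ v ∈ θ.1.2.2,
      ms m (own W θ.1.1 B θ.1.2 v) ≤ ms m (own W θ.1.1 B θ.1.2 v₀) := by
    intro θ
    refine Finset.exists_max_image _ _ ?_
    by_contra h4
    rw [Finset.not_nonempty_iff_eq_empty] at h4
    have h5 := (hE _ _ (hΘm θ)).cov
    have h6 : (B.filter fun l => ∃ v ∈ θ.1.2.2, θ.1.2.1 - θ.1.1 v ∈ W l) = ∅ := by
      rw [h4]
      simp
    have h7 : ms m (∅ : Finset Λ) = 0 := by unfold ms; simp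
    rw [h6, h7] at h5
    have h8 : 0 < (1 - δ) * ms m B := mul_pos (by linarith) hB
    linarith
  choose v₀ hv₀ hv₀max using hex
  have hav := averaged W m hpos hm B ((M : ℝ) / Fintype.card G) c hc
    ((univ : Finset (Fin M → G)).sigma F : Finset (Σ _ : Fin M → G, G × Finset (Fin M))) N
    (fun θ => θ.1.1) (fun θ => θ.1.2) v₀ (s := s) (fun a =>
      one_sample h1 h3 W B a _ c hs hc _ N hN0 hcard (fun θ => θ.1.1) (fun θ => θ.1.2) v₀
        (fun I₁ I₂ h => yy_mono hS hM hMD a h) (fun π hπ => by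
          have h5 := h2 G Λ M s W B F a c π hM hdisj hF (by omega)
          rw [← hN] at h5
          rw [sum_theta F (fun ω p => if pat W ω B p a = π then (1 : ℝ) else 0)]
          refine le_trans (le_of_eq ?_) h5
          refine Finset.sum_congr rfl fun ω _ => ?_
          rw [Finset.sum_boole]))
  obtain ⟨θ, -, hθ⟩ := Finset.exists_le_of_sum_le (s := (univ : Finset
      ((univ : Finset (Fin M → G)).sigma F : Finset (Σ _ : Fin M → G, G × Finset (Fin M)))))
    (g := fun _ => ZZ ((M : ℝ) / Fintype.card G) W m s B + 1 / (s : ℝ) ^ 5) (by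
      rw [← Finset.card_pos, Finset.card_univ]
      have h5 : (0 : ℝ) < (Fintype.card ((univ : Finset (Fin M → G)).sigma F :
        Finset (Σ _ : Fin M → G, G × Finset (Fin M))) : ℝ) := by rw [hcard]; exact hN0
      exact_mod_cast h5) (le_trans hav (by
      rw [Finset.sum_const, Finset.card_univ, nsmul_eq_mul, hcard]))
  have hΛ : Nonempty Λ := (Finset.nonempty_of_sum_ne_zero (s := univ) (f := m)
    (by rw [hm]; norm_num)).to_type
  obtain ⟨p1, p2, p3, -, -, -, -⟩ := h1 G Λ M s W θ.1.1 B θ.1.2 (fun _ => hΛ.some)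
  have hEd := hE _ _ (hΘm θ)
  refine ⟨{v // v ∈ θ.1.2.2}, inferInstance, fun v => own W θ.1.1 B θ.1.2 v, ⟨v₀ θ, hv₀ θ⟩,
    fun v => (p1 v).1, fun v v' hvv => p2 v v' fun h => hvv (Subtype.ext h),
    fun v => hv₀max θ v v.2, fun v => ?_, ?_, ?_⟩
  · refine lt_of_le_of_lt ?_ (hEd.none v v.2)
    unfold ms
    exact Finset.sum_le_sum_of_subset_of_nonneg (p1 v).2 fun l _ _ => hpos l
  · refine hEd.cov.trans (le_of_eq ?_)
    rw [← p3]
    unfold ms
    rw [Finset.sum_biUnion fun v _ v' _ hvv => p2 v v' hvv]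
    exact (Finset.sum_coe_sort θ.1.2.2 fun v => ∑ l ∈ own W θ.1.1 B θ.1.2 v, m l).symm
  · have e1 : ∑ v : {v // v ∈ θ.1.2.2}, ZZ ((M : ℝ) / Fintype.card G) W m s
        (own W θ.1.1 B θ.1.2 v) = ∑ v ∈ θ.1.2.2, ZZ ((M : ℝ) / Fintype.card G) W m s
        (own W θ.1.1 B θ.1.2 v) :=
      Finset.sum_coe_sort θ.1.2.2 fun v => ZZ ((M : ℝ) / Fintype.card G) W m s
        (own W θ.1.1 B θ.1.2 v)
    have e2 : ∀ inst : DecidableEq {v // v ∈ θ.1.2.2},
        ∑ v ∈ @Finset.erase _ inst (univ : Finset {v // v ∈ θ.1.2.2}) ⟨v₀ θ, hv₀ θ⟩,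
        min 1 ((s : ℝ) * ms m (own W θ.1.1 B θ.1.2 v)) = ∑ v ∈ θ.1.2.2.erase (v₀ θ),
        min 1 ((s : ℝ) * ms m (own W θ.1.1 B θ.1.2 v)) := by
      intro inst
      have e3 := Finset.add_sum_erase (univ : Finset {v // v ∈ θ.1.2.2})
        (fun v => min 1 ((s : ℝ) * ms m (own W θ.1.1 B θ.1.2 v)))
        (mem_univ (⟨v₀ θ, hv₀ θ⟩ : {v // v ∈ θ.1.2.2}))
      have e4 := Finset.add_sum_erase θ.1.2.2
        (fun v => min 1 ((s : ℝ) * ms m (own W θ.1.1 B θ.1.2 v))) (hv₀ θ)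
      have e5 : ∑ v : {v // v ∈ θ.1.2.2}, min 1 ((s : ℝ) * ms m (own W θ.1.1 B θ.1.2 v)) =
          ∑ v ∈ θ.1.2.2, min 1 ((s : ℝ) * ms m (own W θ.1.1 B θ.1.2 v)) :=
        Finset.sum_coe_sort θ.1.2.2 fun v => min 1 ((s : ℝ) * ms m (own W θ.1.1 B θ.1.2 v))
      rw [e5, ← e4] at e3
      exact add_left_cancel e3
    beta_reduce
    rw [e1, e2]
    have e6 : ∑ v ∈ θ.1.2.2, ZZ ((M : ℝ) / Fintype.card G) W m s (own W θ.1.1 B θ.1.2 v) -
        (c + 8 * Real.log (s + 1)) * ∑ v ∈ θ.1.2.2.erase (v₀ θ),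
          min 1 ((s : ℝ) * ms m (own W θ.1.1 B θ.1.2 v)) ≤
        ZZ ((M : ℝ) / Fintype.card G) W m s B + 1 / (s : ℝ) ^ 5 := hθ
    linarith

end main

end Pool.Agent.Helper87.MCP
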